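import Pool.Agent.Helper950.WL.Cyc

/-!
# Upper bounds for the Weisfeiler-Leman dimension of group tables

Let `G` be a finite group that is generated by an abelian normal subgroup `A` and `d` further
elements. The conjugations by the elements of `G` generate a ring of endomorphisms of `A`. We
show that the Latin square graph of `G` (the graph of its multiplication table) is identified by
the `k`-dimensional Weisfeiler-Leman method for `k ≥ d + 2 s + 14` if this ring is an image of a
ring `R` whose finite modules are direct sums of submodules generated by `s` elements. In
particular (`s = 1`) isomorphism of these graphs with any other graph is in polynomial time for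
every fixed `d`. For `s = 1` one can take

* `R` a principal ideal domain: for `R = ℤ` the elements of `G` act on `A` as power maps, for
  example `A` is the centre of `G` (`power` below), for `R = F_p[T]` the group `A` is elementary
  abelian and `G` acts on it as a cyclic group (`cyclicAction` below), for example `G / A` is
  cyclic;
* `R` a semisimple ring: `A` is a completely reducible `G`-module, for example a product of
  minimal normal subgroups (`completelyReducible` below).

No such bound holds for all groups `G` with a central subgroup `A` of bounded order and `G / A`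
abelian (the starting file `MP_f1a348_lc.GroupWLDimension`).

The proof: a frame of four cells of the table defines the rows, columns and symbols and the
product with few variables, so the other graph is the graph of a group `H`. Pebbles on the `d`
generators and on `s` elements of `A` define an abelian normal subgroup `A⁺ ≥ A` of `G` that is an
`R`-module, and the corresponding subgroup of `H`. Duplicator's bijections show that linear
systems in `s` unknowns with constants in the intersection of `A⁺` with the subgroup of the
pebbled elements have equally many solutions in `A⁺` and in its counterpart. Counting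
homomorphisms (Lovász) we extend the partial isomorphism to all of `A⁺` and then to `G`.
-/

set_option autoImplicit false

namespace Pool.Agent.Results.MP_128e7d_lc.AbelianByFewGenerators

open Pool.Agent.W185.SRG Pool.Agent.W185.LSQ Pool.Agent.Helper950.WL

/-- Example: all elements of `G` act on the abelian subgroup `A` as power maps. -/
theorem power (G : Type) [Group G] [Fintype G] (A : Subgroup G)
    (hA : ∀ a ∈ A, ∀ b ∈ A, a * b = b * a) (hpow : ∀ g : G, ∃ m : ℕ, ∀ a ∈ A, g * a * g⁻¹ = a ^ m)
    (d : ℕ) (x : Fin d → G) (hgen : A ⊔ Subgroup.closure (Set.range x) = ⊤) :
    WLDimLE (d + 16) (latinGraph fun a b : G => a * b) :=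
  wl_power A hA hpow x hgen

/-- Example: the abelian normal subgroup `A` is completely reducible. -/
theorem completelyReducible (G : Type) [Group G] [Fintype G] (A : Subgroup G) (hAn : A.Normal)
    (hA : ∀ a ∈ A, ∀ b ∈ A, a * b = b * a)
    (hcr : ∀ N : Subgroup G, N.Normal → N ≤ A →
      ∃ N' : Subgroup G, N'.Normal ∧ N' ≤ A ∧ N ⊓ N' = ⊥ ∧ N ⊔ N' = A)
    (d : ℕ) (x : Fin d → G) (hgen : A ⊔ Subgroup.closure (Set.range x) = ⊤) :
    WLDimLE (d + 16) (latinGraph fun a b : G => a * b) :=
  wl_semisimple A hAn hA hcr x hgen

/-- Example: `A` is elementary abelian and `G` acts on it as the cyclic group generated by `t`. -/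
theorem cyclicAction (G : Type) [Group G] [Fintype G] (A : Subgroup G) (hAn : A.Normal)
    (hA : ∀ a ∈ A, ∀ b ∈ A, a * b = b * a) (p : ℕ) (hp : p.Prime) (hexp : ∀ a ∈ A, a ^ p = 1)
    (t : G) (ht : ∀ g : G, ∃ j : ℕ, ∀ a ∈ A, g * a * g⁻¹ = t ^ j * a * (t ^ j)⁻¹)
    (d : ℕ) (x : Fin d → G) (hgen : A ⊔ Subgroup.closure (Set.range x) = ⊤) :
    WLDimLE (d + 16) (latinGraph fun a b : G => a * b) :=
  wl_cyclic A hAn hA p hp hexp t ht x hgen

/-- The general theorem. -/
theorem result (G R M : Type) [Group G] [Fintype G] [Ring R] [AddCommGroup M] [Module R M]
    (s d : ℕ) (ι : M → G) (x : Fin d → G) (hs : 1 ≤ s)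
    -- every finite `R`-module is a direct sum of submodules generated by `s` elements
    (hR : Small s R)
    -- `ι` is an embedding of the abelian group `M` into `G`
    (hinj : Function.Injective ι) (hadd : ∀ a b, ι (a + b) = ι a * ι b)
    -- conjugations act on `M` as multiplications by elements of `R`
    (hconj : ∀ g, ∃ r : R, ∀ a, g * ι a * g⁻¹ = ι (r • a))
    -- the elements of `R` act as products of conjugations
    (hring : ∀ r : R, ∃ l : List G, ∀ a, ι (r • a) = (l.map fun g => g * ι a * g⁻¹).prod)
    -- `G` is generated by the image of `M` and the `d` elements `x i`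
    (hgen : ∀ g, ∃ a, ∃ y ∈ Subgroup.closure (Set.range x), g = ι a * y) :
    WLDimLE (d + 2 * s + 14) (latinGraph fun a b : G => a * b) :=
  fun _ hk _ _ Y h => main hs x hR ι hinj hadd hconj hring hgen hk Y h

end Pool.Agent.Results.MP_128e7d_lc.AbelianByFewGenerators
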