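import Pool.Agent.H153SS.Final

/-!
# Graphs with simple eigenvalues need almost linear dimension

Isomorphism of graphs all of whose eigenvalues are simple is decidable in polynomial time
(Leighton and Miller; Babai, Grigoryev and Mount for bounded multiplicity). On this class neither
the Weisfeiler-Leman method nor the invertible-map tests of dimension `o(n / log² n)` decide
isomorphism, for graphs with `n` vertices.
-/

set_option autoImplicit false

namespace Pool.Agent.Results.MP_128e7d_lc.SimpleSpectrum

open Pool.Agent.W185.SRG Pool.Agent.Y598.IM Pool.Agent.H153SS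

/-- **Graphs with simple spectrum need almost linear dimension.** -/
theorem result (k : ℕ) (hk : 1 ≤ k) :
    ∃ (V : Type) (_ : Fintype V) (G H : SimpleGraph V),
      Fintype.card V ≤ 131010048 * (k * (Nat.log 2 k + 1) ^ 2) ∧
      SimpleSpectrum G ∧ SimpleSpectrum H ∧ IsEmpty (G ≃g H) ∧
      ∀ j ≤ k, WLEquivalent j G H ∧ Indist 2 j G.Adj [] H.Adj [] :=
  Pool.Agent.H153SS.ss_main k hk

end Pool.Agent.Results.MP_128e7d_lc.SimpleSpectrum
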