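import Pool.Agent.H129.UB.Main

set_option autoImplicit false

namespace Pool.Agent.Results.MP_128e7d_lc.UnitBallGraphsGIComplete

open Pool.Agent.NPC Pool.Agent.NPC.R671 Pool.Agent.NPC.UB129 Pool.Agent.H129.UB

/-- **Isomorphism of intersection graphs of unit balls is as hard as graph isomorphism**, in every
real normed space `E` of dimension at least three (finite or infinite).
(1) A polynomial-time map `T` sends every graph to an intersection graph of closed unit balls
of `E`, and `T G`, `T H` are isomorphic if and only if `G`, `H` are.
(2) Some polynomial-time algorithm decides isomorphism correctly for all pairs of intersection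
graphs of unit balls of `E` if and only if GRAPH ISOMORPHISM is in `P`.
(3) Every problem in `NP` has a polynomial-time many-one reduction to graph isomorphism all of whose
values are pairs of intersection graphs of unit balls of `E` if and only if GRAPH ISOMORPHISM is
`NP`-hard. -/
theorem result (E : Type*) [NormedAddCommGroup E] [NormedSpace ℝ E]
    (hE : 3 ≤ Module.rank ℝ E) :
    (∃ (N : ℕ → ℕ) (T : ∀ n, SimpleGraph (Fin n) → SimpleGraph (Fin (N n)))
        (F : List Bool → List Bool), PolyTime F ∧
      (∀ n G, F (bits (adjMatrix G)) = bits (adjMatrix (T n G))) ∧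
      (∀ n G, BallGraph E (T n G)) ∧
      ∀ n m G H, Nonempty (T n G ≃g T m H) ↔ Nonempty (G ≃g H)) ∧
    ((∃ A : List Bool → List Bool, PolyTime A ∧
        ∀ (n m : ℕ) (G : SimpleGraph (Fin n)) (H : SimpleGraph (Fin m)),
          BallGraph E G → BallGraph E H →
          (A (bits (adjMatrix G, adjMatrix H)) = [true] ↔ Nonempty (G ≃g H))) ↔ InP GI) ∧
    ((∀ L : Set (List Bool), InNP L → ∃ g : List Bool → List Bool, PolyTime g ∧
        ∀ x, ∃ (n m : ℕ) (G : SimpleGraph (Fin n)) (H : SimpleGraph (Fin m)),
          BallGraph E G ∧ BallGraph E H ∧ g x = bits (adjMatrix G, adjMatrix H) ∧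
          (x ∈ L ↔ Nonempty (G ≃g H))) ↔ NPHard GI) :=
  UB129.main E hE

end Pool.Agent.Results.MP_128e7d_lc.UnitBallGraphsGIComplete
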