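import Pool.Agent.H129.UB.WlMain

set_option autoImplicit false

namespace Pool.Agent.Results.MP_128e7d_lc.UnitBallGraphsWLDimension

open Pool.Agent.H129.UB Pool.Agent.W185.SRG

/-- **The Weisfeiler-Leman method on intersection graphs of unit balls.** For every real normed
space `E` of dimension at least three there is a constant `c` such that for every `k ≥ 1` there are
two non-isomorphic intersection graphs of closed unit balls of `E`, with the same vertex set of at
most `c (k (log₂ k + 1)) ^ 12` elements, which the `k`-dimensional Weisfeiler-Leman method does not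
distinguish. -/
theorem result (E : Type*) [NormedAddCommGroup E] [NormedSpace ℝ E]
    (hE : 3 ≤ Module.rank ℝ E) :
    ∃ c : ℕ, ∀ k : ℕ, 1 ≤ k → ∃ (X : Type) (_ : Fintype X) (P Q : SimpleGraph X),
      BallGraph E P ∧ BallGraph E Q ∧ IsEmpty (P ≃g Q) ∧ WLEquivalent k P Q ∧
      Fintype.card X ≤ c * (k * (Nat.log 2 k + 1)) ^ 12 :=
  wl_lower E hE

end Pool.Agent.Results.MP_128e7d_lc.UnitBallGraphsWLDimension
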